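import Pool.Agent.H86.Bpf.Fin

/-!
# A b-parking-function polytope which is not magic positive

The definitions are in `Pool.Agent.H86.Bpf.Defs`.

Outline. The polytope of `b` translated by `-1` is the polymatroid whose lattice points are the
`y ≥ 0` with `y(T) ≤ (sum of the |T| largest numbers w_j)`, `w_j = b_1 + ⋯ + b_j - 1`. Splitting off
the largest tight set shows that the number of its lattice points is a polynomial along every ray
`s u + r` of sequences. So it is a polynomial in `(x, t)` for `x u + t c`, where `u` is the sequence
`2,2,2,2,2,1,1,1,1,0,…` and `c` the sequence `13,12,…,0`. The coefficient of `x ^ 2` in the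
Ehrhart polynomial for `x u` is `-36952721/3880800` (the first fifteen values are computed by
Kronecker substitution). So for large `s` the coefficient of `t ^ 2` of the Ehrhart polynomial of
`b = (1,1,1,1,1,1+s,1,1,1,1+s,1,1,1,1)` is negative.
-/

set_option autoImplicit false

namespace Pool.Agent.Results.MP_2ef9c7_co.NotMagicPositive

open Pool.Agent.H86.Bpf

/-- There is a vector `b` of fourteen positive integers such that the `b`-parking-function polytope
has a negative magic coefficient. -/
theorem result : ∃ b : Fin 14 → ℕ, (∀ i, 1 ≤ b i) ∧ ∃ μ : ℕ → ℚ,
    IsMagicCoefficients (parkingPolytope b) μ ∧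
      ∃ i ≤ dimension (parkingPolytope b), μ i < 0 := main

end Pool.Agent.Results.MP_2ef9c7_co.NotMagicPositive
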